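import Mathlib
import Pool.Agent.H58.Dk4

set_option autoImplicit false

namespace Pool.Agent.Results.MP_05fa0d_nt.LowDisc

open Pool.Agent.H58.Dk Polynomial

theorem result (F : Type) [Field F] [Fintype F] (E : F ≃ Fin (Fintype.card F)) (hE : (E 0 : ℕ) = 0)
    (P : F[X]) (hP : Irreducible P) (Θ : LaurentSeries F) (hΘ : BadPq P Θ) :
    ∃ C : ℝ, ∀ N : ℕ, 2 ≤ N →
      (∀ a ∈ Set.Icc (0 : ℝ) 1, ∀ b ∈ Set.Icc (0 : ℝ) 1,
        |(cnt E P Θ N a b : ℝ) / N - a * b| ≤ C * Real.log N ^ 2 / N) ∧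
      disc E P Θ N ≤ C * Real.log N ^ 2 / N := by
  obtain ⟨C, hC⟩ := main E hE hP hΘ
  refine ⟨C, fun N hN => ⟨hC N hN, ?_⟩⟩
  have h0 := (abs_nonneg _).trans (hC N hN 0 (by simp) 0 (by simp))
  exact Real.sSup_le (by rintro x ⟨a, ha, b, hb, rfl⟩; exact hC N hN a ha b hb) h0

end Pool.Agent.Results.MP_05fa0d_nt.LowDisc
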